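import Pool.Agent.H58.GR.Fin

/-!
# Pattern systems with many levels: cyclic families
-/

set_option autoImplicit false
set_option linter.unusedVariables false

namespace Pool.Agent.H58.GR

open Pool.Agent.H53.GC Pool.Agent.H58.SF Pool.Agent.H58.CT
open Classical

variable {𝓔 X 𝓛 : Type} {P : PS 𝓔 X 𝓛} {ρ : 𝓔 → X → X} {j : ℕ} {I J : Type} {p : ℕ}

/-- `Ω` is invariant under cyclic shifts of valid tuples at the sorts of size less than `m`. -/
def CycOn (P : PS 𝓔 X 𝓛) (j m : ℕ) (Ω : 𝓔 → (ZMod p → X) → X) : Prop :=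
  ∀ e, P.sz e < m → ∀ w : ZMod p → X, VJ P j e w → Ω e (fun i => w (i + 1)) = Ω e w

/-- From the theorem on cyclic terms. -/
theorem exists_cyc (hT : T_TRN) [Finite 𝓔] [Finite X] (hP : Good P) (hρ : CoreRet P.R ρ)
    (hM : MixJ P j) [Fact p.Prime] (hp : Nat.card X < p) :
    ∃ c : 𝓔 → (ZMod p → X) → X, FamJ P j (ZMod p) c ∧ CycOn P j (j + 1) c := by
  obtain ⟨t, ht⟩ := @hT (clnJ P ρ hρ j) (AIx P ρ j) inferInstance (AC P ρ j)
    (fun s => algJ hP hρ s) (fun s => inferInstance) p inferInstance (noPrjOn hP hρ hM)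
    (fun s => lt_of_le_of_lt (Finite.card_subtype_le _) hp)
  refine ⟨t.1, t.2.fam, ?_⟩
  intro e he w hw
  rcases Nat.lt_or_ge (P.sz e) j with h | h
  · exact congrArg (t.1 e) (funext fun i => VJ.const hP hw h _ _)
  · have hs : P.sz e = j := le_antisymm (Nat.lt_succ_iff.1 he) h
    have hw0 := hw
    obtain ⟨q, h1, h2, h3⟩ := hw
    have hsc : P.Sc (P.tp e) e := (hP.sctp _ _).2 (hP.refl _)
    let s : AIx P ρ j := ⟨(e, ρ e (w 0)), hs, hρ.idem e _, fun e => ρ e (q 0 e),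
      hρ.fam _ _ (h1 0), by
        change ρ e (q 0 e) = ρ e (w 0)
        rw [h3]⟩
    have hx : ∀ i, ρ e (ρ e (w i)) = ρ e (w i) ∧
        (∃ q, P.R (P.tp e) q ∧ q e = ρ e (w i)) ∧
        ∀ e', P.le e' e → P.sz e' < j → P.rd e' e (ρ e (w i)) = P.rd e' e (ρ e (w 0)) := by
      intro i
      refine ⟨hρ.idem e _, ⟨fun e => ρ e (q i e), hρ.fam _ _ (h1 i), ?_⟩, ?_⟩
      · change ρ e (q i e) = ρ e (w i)
        rw [h3]
      · intro e' he' hs'
        rw [← h3 i, ← h3 0, CoreRet.rd_eq hP hρ (h1 i) he', CoreRet.rd_eq hP hρ (h1 0) he',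
          ← hP.read _ _ (h1 i) e' e hsc he', ← hP.read _ _ (h1 0) e' e hsc he',
          h2 e' ((hP.sctp _ _).2 he') hs' i 0]
    let x : ZMod p → AC P ρ j s := fun i => ⟨ρ e (w i), hx i⟩
    have h4 := congrArg Subtype.val (ht s x)
    have h5 : t.1 e (fun i => ρ e (w (i + 1))) = t.1 e (fun i => ρ e (w i)) := h4
    rw [t.2.right e (fun i => w (i + 1)), t.2.right e w] at h5
    exact h5

/-- shifts -/
theorem CycOn.shift (hP : Good P) {m : ℕ} {c : 𝓔 → (ZMod p → X) → X} (hc : CycOn P j m c)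
    [NeZero p] {e : 𝓔} (he : P.sz e < m) {w : ZMod p → X} (hw : VJ P j e w) (i : ZMod p) :
    c e (fun a => w (a + i)) = c e w := by
  have h1 : ∀ n : ℕ, c e (fun a => w (a + (n : ZMod p))) = c e w := by
    intro n
    induction n with
    | zero => simp
    | succ n ih =>
      have h2 := hc e he (fun a => w (a + (n : ZMod p))) (hw.reindex fun a => a + (n : ZMod p))
      rw [← ih, ← h2]
      congr 1
      funext a
      push_cast
      congr 1
      ring
  have h2 := h1 i.val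
  rwa [ZMod.natCast_zmod_val] at h2

/-- The descent. -/
theorem descent (hP : Good P) [NeZero p] {c Ω : 𝓔 → (ZMod p → X) → X}
    (hc : FamJ P j (ZMod p) c) (hcc : CycOn P j (j + 1) c) (hΩ : FamJ P (j + 1) (ZMod p) Ω)
    {m : ℕ} (hΩc : CycOn P (j + 1) m Ω) :
    ∃ Ω' : 𝓔 → (ZMod p → X) → X, FamJ P j (ZMod p) Ω' ∧ CycOn P j m Ω' := by
  have key : ∀ l (q : ZMod p → 𝓔 → X), (∀ i, P.R l (q i)) → Agr P j l q →
      (∀ i, P.R l (fun e => c e (fun a => q (a + i) e))) ∧
      Agr P (j + 1) l (fun i e => c e (fun a => q (a + i) e)) := by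
    intro l q hq ha
    refine ⟨fun i => hc l (fun a => q (a + i)) (fun a => hq _)
      fun e he hs a a' => ha e he hs _ _, ?_⟩
    intro e he hs i i'
    change c e (fun a => q (a + i) e) = c e (fun a => q (a + i') e)
    have hv : VJ P j e (fun i => q i e) := VJ.of_rel hP hq ha he
    rw [hcc.shift hP hs hv i, hcc.shift hP hs hv i']
  refine ⟨fun e w => Ω e (fun i => c e (fun a => w (a + i))), ?_, ?_⟩
  · intro l q hq ha
    obtain ⟨h1, h2⟩ := key l q hq ha
    exact hΩ l _ h1 h2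
  · intro e he w hw
    obtain ⟨q, h1, h2, h3⟩ := hw
    obtain ⟨h4, h5⟩ := key _ q h1 h2
    have hv : VJ P (j + 1) e (fun i => c e (fun a => w (a + i))) := by
      refine ⟨_, h4, h5, fun i => ?_⟩
      change c e (fun a => q (a + i) e) = c e (fun a => w (a + i))
      congr 1
      exact funext fun a => h3 _
    have h6 := hΩc e he _ hv
    refine Eq.trans ?_ h6
    change Ω e (fun i => c e (fun a => w (a + i + 1))) =
      Ω e (fun i => c e (fun a => w (a + (i + 1))))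
    refine congrArg (Ω e) (funext fun i => congrArg (c e) (funext fun a => ?_))
    rw [add_assoc]

/-- A cyclic family. -/
theorem exists_total (hT : T_TRN) [Finite 𝓔] [Finite X] (hP : Good P) (hρ : CoreRet P.R ρ)
    (hM : ∀ j, MixJ P j) [Fact p.Prime] (hp : Nat.card X < p) :
    ∃ Ω : 𝓔 → (ZMod p → X) → X, FamJ P 0 (ZMod p) Ω ∧
      ∀ e (w : ZMod p → X), VJ P 0 e w → Ω e (fun i => w (i + 1)) = Ω e w := by
  have hfE := Fintype.ofFinite 𝓔
  have := NeZero.mk (Fact.out (p := p.Prime)).ne_zero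
  obtain ⟨m, hm⟩ : ∃ m : ℕ, ∀ e, P.sz e < m :=
    ⟨Finset.univ.sup P.sz + 1, fun e => Nat.lt_succ_of_le (Finset.le_sup (Finset.mem_univ e))⟩
  have h1 : ∀ n : ℕ, n ≤ m → ∃ Ω : 𝓔 → (ZMod p → X) → X,
      FamJ P (m - n) (ZMod p) Ω ∧ CycOn P (m - n) m Ω := by
    intro n
    induction n with
    | zero =>
      intro _
      refine ⟨fun e w => w 0, fun l q hq _ => hq 0, fun e he w hw => ?_⟩
      exact VJ.const hP hw he _ _
    | succ n ih =>
      intro hn
      obtain ⟨Ω, h1, h2⟩ := ih (by omega)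
      have h3 : m - n = m - (n + 1) + 1 := by omega
      rw [h3] at h1 h2
      obtain ⟨c, h4, h5⟩ := exists_cyc (p := p) hT hP hρ (hM (m - (n + 1))) hp
      exact descent hP h4 h5 h1 h2
  obtain ⟨Ω, h2, h3⟩ := h1 m le_rfl
  rw [Nat.sub_self] at h2 h3
  exact ⟨Ω, h2, fun e w hw => h3 e (hm e) w hw⟩

/-- Systems with mixed families have no selection of coordinates. -/
theorem no_selects (hT : T_TRN) (hC : T_COR) [Finite 𝓔] [Finite X] (hP : Good P)
    (hM : ∀ j, MixJ P j) : ¬ ∃ Z, Selects P.R Z := by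
  rintro ⟨Z, hZ1, hZ2⟩
  obtain ⟨ρ, hρ⟩ := hC 𝓔 X 𝓛 P.R
  obtain ⟨p, hp1, hp2⟩ := Nat.exists_infinite_primes (Nat.card X + 1)
  have : Fact p.Prime := ⟨hp2⟩
  have := NeZero.mk hp2.ne_zero
  obtain ⟨Ω, h1, h2⟩ := exists_total (p := p) hT hP hρ hM (by omega)
  have hcyc : ∃ Ω' : 𝓔 → (ZMod p → X) → X, Fam P.R (ZMod p) Ω' ∧
      ∀ e (w : ZMod p → X), Ω' e (fun i => w (i + 1)) = Ω' e w := by
    by_cases hX : Nonempty X
    · obtain ⟨x₀⟩ := hX
      refine ⟨fun e w => if ∀ i, ∃ q, P.R (P.tp e) q ∧ q e = w i then Ω e w else x₀, ?_, ?_⟩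
      · intro l q hq
        refine hP.loc l _ _ ?_ (h1 l q hq fun e he hs => absurd hs (Nat.not_lt_zero _))
        intro e he
        exact (if_pos fun i => ⟨q i, hP.rtp l (q i) e (hq i) he, rfl⟩).symm
      · intro e w
        have h3 : (∀ i : ZMod p, ∃ q, P.R (P.tp e) q ∧ q e = w (i + 1)) ↔
            ∀ i : ZMod p, ∃ q, P.R (P.tp e) q ∧ q e = w i := by
          refine ⟨fun h i => ?_, fun h i => h _⟩
          have h4 := h (i - 1)
          rwa [sub_add_cancel] at h4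
        by_cases h4 : ∀ i : ZMod p, ∃ q, P.R (P.tp e) q ∧ q e = w i
        · refine (if_pos (h3.2 h4)).trans (Eq.trans ?_ (if_pos h4).symm)
          refine h2 e w ?_
          choose q hq using h4
          exact ⟨q, fun i => (hq i).1, fun e he hs => absurd hs (Nat.not_lt_zero _),
            fun i => (hq i).2⟩
        · exact (if_neg (fun h => h4 (h3.1 h))).trans (if_neg h4).symm
    · exact ⟨Ω, fun l q hq => h1 l q hq fun e he hs => absurd hs (Nat.not_lt_zero _),
        fun e w => (hX ⟨w 0⟩).elim⟩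
  obtain ⟨Ω', h3, h4⟩ := hcyc
  obtain ⟨i, hi⟩ := hZ1 (ZMod p) Ω' h3
  have h5 : (fun (e : 𝓔) (x : ZMod p → X) => Ω' e (fun i => x (i + 1))) = Ω' := by
    funext e w
    exact h4 e w
  have h6 := hZ2 (ZMod p) (ZMod p) (fun i => i + 1) Ω' i i h3 hi (by
    rw [h5]
    exact hi)
  have h7 : (1 : ZMod p) = 0 := by
    have h8 : i + 1 = i + 0 := by rw [add_zero]; exact h6
    exact add_left_cancel h8
  exact one_ne_zero h7

end Pool.Agent.H58.GR
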