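import Pool.Agent.H58.CT.Targets
import Pool.Agent.H53.GC.Targets

/-!
# Pattern systems with many levels: definitions
-/

set_option autoImplicit false
set_option linter.unusedVariables false

namespace Pool.Agent.H58.GR

open Pool.Agent.H53.GC Pool.Agent.H58.SF Pool.Agent.H58.CT
open Classical

/-- Pattern systems: the sorts `e : 𝓔` have sizes `sz e` and are ordered by `le`; the values at a
sort `e` determine the values at the sorts `e'` below `e` (these are `rd e' e x`). The relation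
`R l` concerns the sorts in the scope `Sc l`; the relation `R (tp e)` concerns the sorts below
`e`. -/
structure PS (𝓔 X 𝓛 : Type) where
  R : 𝓛 → (𝓔 → X) → Prop
  Sc : 𝓛 → 𝓔 → Prop
  sz : 𝓔 → ℕ
  le : 𝓔 → 𝓔 → Prop
  rd : 𝓔 → 𝓔 → X → X
  tp : 𝓔 → 𝓛

section systems

variable {𝓔 X 𝓛 : Type}

/-- The properties of pattern systems. -/
structure Good (P : PS 𝓔 X 𝓛) : Prop where
  refl : ∀ e, P.le e e
  loc : ∀ l (p q : 𝓔 → X), (∀ e, P.Sc l e → p e = q e) → P.R l p → P.R l q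
  down : ∀ l a b, P.Sc l b → P.le a b → P.Sc l a
  read : ∀ l (p : 𝓔 → X), P.R l p → ∀ a b, P.Sc l b → P.le a b → p a = P.rd a b (p b)
  sctp : ∀ e e', P.Sc (P.tp e) e' ↔ P.le e' e
  rtp : ∀ l (p : 𝓔 → X) e, P.R l p → P.Sc l e → P.R (P.tp e) p

/-- The tuples `p i` agree at the sorts of size less than `j` in the scope of `l`. -/
def Agr (P : PS 𝓔 X 𝓛) (j : ℕ) (l : 𝓛) {I : Type} (p : I → 𝓔 → X) : Prop :=
  ∀ e, P.Sc l e → P.sz e < j → ∀ i i', p i e = p i' e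

/-- The families which preserve the relations for tuples which agree at the sorts of size less
than `j`. -/
def FamJ (P : PS 𝓔 X 𝓛) (j : ℕ) (I : Type) (F : 𝓔 → (I → X) → X) : Prop :=
  ∀ l (p : I → 𝓔 → X), (∀ i, P.R l (p i)) → Agr P j l p → P.R l (fun e => F e (fun i => p i e))

/-- idempotent families of the level `j` -/
structure IFamJ (P : PS 𝓔 X 𝓛) (ρ : 𝓔 → X → X) (j : ℕ) (I : Type) (F : 𝓔 → (I → X) → X) :
    Prop where
  fam : FamJ P j I F
  left : ∀ e w, ρ e (F e w) = F e w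
  right : ∀ e w, F e (fun i => ρ e (w i)) = F e w
  idem : ∀ e t, F e (fun _ => t) = ρ e t

/-- valid tuples at the sort `e` at the level `j` -/
def VJ (P : PS 𝓔 X 𝓛) (j : ℕ) (e : 𝓔) {I : Type} (w : I → X) : Prop :=
  ∃ q : I → 𝓔 → X, (∀ i, P.R (P.tp e) (q i)) ∧ Agr P j (P.tp e) q ∧ ∀ i, q i e = w i

/-- mixed families -/
def MixJ (P : PS 𝓔 X 𝓛) (j : ℕ) : Prop :=
  ∀ e e', P.sz e = j → ¬ P.le e e' →
    ∃ (D : 𝓔 → (Fin 2 → X) → X) (H : 𝓔 → (Fin 6 → X) → X) (G : Fin 3 → 𝓔 → (Fin 2 → X) → X),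
      FamJ P j (Fin 2) D ∧ FamJ P j (Fin 6) H ∧ (∀ r, FamJ P j (Fin 2) (G r)) ∧
      (∀ r w, VJ P j e w → G r e w = D e w) ∧
      ∀ r w, VJ P j e' w → G r e' w = H e' (pat r (w 0) (w 1))

/-! ### Basic facts -/

variable {P : PS 𝓔 X 𝓛} {ρ : 𝓔 → X → X} {j : ℕ} {I J : Type}

/-- The value at `e` of tuples which agree at small sorts is valid. -/
theorem VJ.of_rel (hP : Good P) {l : 𝓛} {p : I → 𝓔 → X} (hp : ∀ i, P.R l (p i))
    (ha : Agr P j l p) {e : 𝓔} (he : P.Sc l e) : VJ P j e (fun i => p i e) :=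
  ⟨p, fun i => hP.rtp l (p i) e (hp i) he, fun e' he' hs i i' =>
    ha e' (hP.down l e' e he ((hP.sctp e e').1 he')) hs i i', fun _ => rfl⟩

/-- Valid tuples at small sorts are constant. -/
theorem VJ.const (hP : Good P) {e : 𝓔} {w : I → X} (hw : VJ P j e w) (he : P.sz e < j) (i i' : I) :
    w i = w i' := by
  obtain ⟨q, _, h2, h3⟩ := hw
  rw [← h3 i, ← h3 i']
  exact h2 e ((hP.sctp e e).2 (hP.refl e)) he i i'

/-- A function on tuples of arguments which agree. -/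
theorem fun_const {f : (I → X) → X} {r : X → X} (h : ∀ t, f (fun _ => t) = r t) (w : I → X)
    (hw : ∀ i i', w i = w i') : ∃ t, w = (fun _ => t) ∧ f w = r t := by
  by_cases hI : Nonempty I
  · obtain ⟨i⟩ := hI
    refine ⟨w i, funext fun i' => hw i' i, ?_⟩
    rw [← h]
    congr 1
    exact funext fun i' => hw i' i
  · have hw' : w = fun _ => f w := funext fun i => (hI ⟨i⟩).elim
    exact ⟨f w, hw', by rw [← h, ← hw']⟩

/-- The values of idempotent families agree at small sorts. -/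
theorem IFamJ.agr {F G : 𝓔 → (I → X) → X} (hF : ∀ e t, F e (fun _ => t) = ρ e t)
    (hG : ∀ e t, G e (fun _ => t) = ρ e t) {e : 𝓔} {w : I → X} (hw : ∀ i i', w i = w i') :
    F e w = G e w := by
  obtain ⟨t, rfl, h⟩ := fun_const (hF e) w hw
  rw [h, hG]

/-- Families can be applied to valid tuples. -/
theorem FamJ.val (hP : Good P) {F : 𝓔 → (I → X) → X} (hF : FamJ P j I F) {e : 𝓔} {w : I → X}
    (hw : VJ P j e w) : ∃ q, P.R (P.tp e) q ∧ q e = F e w ∧
      ∃ q' : I → 𝓔 → X, (∀ i, P.R (P.tp e) (q' i)) ∧ Agr P j (P.tp e) q' ∧ (∀ i, q' i e = w i) ∧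
        ∀ e', q e' = F e' (fun i => q' i e') := by
  obtain ⟨q, h1, h2, h3⟩ := hw
  refine ⟨_, hF _ q h1 h2, ?_, q, h1, h2, h3, fun _ => rfl⟩
  change F e _ = F e w
  congr 1
  exact funext h3

/-- composition -/
theorem IFamJ.comp (hρ : CoreRet P.R ρ) {T : 𝓔 → (I → X) → X} {S : I → 𝓔 → (J → X) → X}
    (hT : IFamJ P ρ j I T) (hS : ∀ i, IFamJ P ρ j J (S i)) :
    IFamJ P ρ j J (fun e w => T e (fun i => S i e w)) where
  fam l p hp ha := by
    refine hT.fam l (fun i e => S i e (fun a => p a e)) (fun i => (hS i).fam l p hp ha) ?_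
    intro e he hs i i'
    exact IFamJ.agr (hS i).idem (hS i').idem fun a a' => ha e he hs a a'
  left e w := hT.left e _
  right e w := by
    congr 1
    funext i
    exact (hS i).right e w
  idem e t := by
    have h1 : (fun i => S i e (fun _ => t)) = fun _ : I => ρ e t :=
      funext fun i => (hS i).idem e t
    rw [h1, hT.idem, hρ.idem]

/-- projections -/
theorem IFamJ.proj (hρ : CoreRet P.R ρ) (i : I) : IFamJ P ρ j I (fun e w => ρ e (w i)) where
  fam l p hp _ := hρ.fam l (p i) (hp i)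
  left e w := hρ.idem e _
  right e w := hρ.idem e _
  idem e t := rfl

/-- The idempotent families of level `j` form a clone. -/
def clnJ (P : PS 𝓔 X 𝓛) (ρ : 𝓔 → X → X) (hρ : CoreRet P.R ρ) (j : ℕ) : Cln where
  T I := {F : 𝓔 → (I → X) → X // IFamJ P ρ j I F}
  pr i := ⟨fun e w => ρ e (w i), IFamJ.proj hρ i⟩
  comp t s := ⟨fun e w => t.1 e (fun i => (s i).1 e w), IFamJ.comp hρ t.2 fun i => (s i).2⟩

/-- the indices of the algebras: sorts of size `j` and the types of the smaller sorts -/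
def AIx (P : PS 𝓔 X 𝓛) (ρ : 𝓔 → X → X) (j : ℕ) : Type :=
  {z : 𝓔 × X // P.sz z.1 = j ∧ ρ z.1 z.2 = z.2 ∧ ∃ q, P.R (P.tp z.1) q ∧ q z.1 = z.2}

/-- the elements of the algebras -/
def AC (P : PS 𝓔 X 𝓛) (ρ : 𝓔 → X → X) (j : ℕ) (s : AIx P ρ j) : Type :=
  {x : X // ρ s.1.1 x = x ∧ (∃ q, P.R (P.tp s.1.1) q ∧ q s.1.1 = x) ∧
    ∀ e', P.le e' s.1.1 → P.sz e' < j → P.rd e' s.1.1 x = P.rd e' s.1.1 s.1.2}

instance [Finite 𝓔] [Finite X] : Finite (AIx P ρ j) := by
  unfold AIx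
  infer_instance

instance [Finite X] (s : AIx P ρ j) : Finite (AC P ρ j s) := by
  unfold AC
  infer_instance

/-- Tuples of elements of one algebra are valid. -/
theorem AC.valid (hP : Good P) {s : AIx P ρ j} (x : I → AC P ρ j s) :
    VJ P j s.1.1 (fun i => (x i).1) := by
  choose q hq using fun i => (x i).2.2.1
  refine ⟨q, fun i => (hq i).1, ?_, fun i => (hq i).2⟩
  intro e' he' hs i i'
  have h1 := (hP.sctp _ _).1 he'
  have h2 : P.Sc (P.tp s.1.1) s.1.1 := (hP.sctp _ _).2 (hP.refl _)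
  rw [hP.read _ _ (hq i).1 e' s.1.1 h2 h1, hP.read _ _ (hq i').1 e' s.1.1 h2 h1, (hq i).2,
    (hq i').2, (x i).2.2.2 e' h1 hs, (x i').2.2.2 e' h1 hs]

/-- `ρ` commutes with reading on valid elements. -/
theorem CoreRet.rd_eq (hP : Good P) (hρ : CoreRet P.R ρ) {e e' : 𝓔} {q : 𝓔 → X}
    (hq : P.R (P.tp e) q) (h : P.le e' e) : P.rd e' e (ρ e (q e)) = ρ e' (P.rd e' e (q e)) := by
  have h2 : P.Sc (P.tp e) e := (hP.sctp _ _).2 (hP.refl _)
  rw [← hP.read _ _ hq e' e h2 h]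
  exact (hP.read _ _ (hρ.fam _ _ hq) e' e h2 h).symm

/-- Values of families on tuples of elements of one algebra. -/
theorem AC.closed (hP : Good P) (hρ : CoreRet P.R ρ) {s : AIx P ρ j} {F : 𝓔 → (I → X) → X}
    (hF : IFamJ P ρ j I F) (x : I → AC P ρ j s) :
    ρ s.1.1 (F s.1.1 (fun i => (x i).1)) = F s.1.1 (fun i => (x i).1) ∧
    (∃ q, P.R (P.tp s.1.1) q ∧ q s.1.1 = F s.1.1 (fun i => (x i).1)) ∧
    ∀ e', P.le e' s.1.1 → P.sz e' < j →
      P.rd e' s.1.1 (F s.1.1 (fun i => (x i).1)) = P.rd e' s.1.1 s.1.2 := by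
  obtain ⟨q, h1, h2, q', h3, h4, h5, h6⟩ := FamJ.val hP hF.fam (AC.valid hP x)
  refine ⟨hF.left _ _, ⟨q, h1, h2⟩, ?_⟩
  intro e' he' hs
  have hsc : P.Sc (P.tp s.1.1) s.1.1 := (hP.sctp _ _).2 (hP.refl _)
  have hsc' : P.Sc (P.tp s.1.1) e' := (hP.sctp _ _).2 he'
  rw [← h2, ← hP.read _ _ h1 e' s.1.1 hsc he', h6]
  obtain ⟨y, hy1, hy2⟩ := s.2.2.2
  have hb : P.rd e' s.1.1 s.1.2 = ρ e' (P.rd e' s.1.1 s.1.2) := by
    have := CoreRet.rd_eq hP hρ hy1 he'
    rw [hy2, s.2.2.1] at this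
    exact this
  by_cases hI : Nonempty I
  · have hc : (fun i => q' i e') = fun _ => P.rd e' s.1.1 s.1.2 := by
      funext i
      rw [hP.read _ _ (h3 i) e' s.1.1 hsc he', h5, (x i).2.2.2 e' he' hs]
    rw [hc, hF.idem, ← hb]
  · have hc : (fun i => q' i e') = fun _ => P.rd e' s.1.1 s.1.2 :=
      funext fun i => (hI ⟨i⟩).elim
    rw [hc, hF.idem, ← hb]

/-- the algebras -/
@[reducible] def algJ (hP : Good P) (hρ : CoreRet P.R ρ) (s : AIx P ρ j) :
    Alg (clnJ P ρ hρ j) (AC P ρ j s) where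
  int t x := ⟨t.1 s.1.1 (fun i => (x i).1), AC.closed hP hρ t.2 x⟩
  int_pr i x := Subtype.ext (x i).2.1
  int_comp t s' x := rfl
  idem t a := Subtype.ext ((t.2.idem _ _).trans a.2.1)

end systems

end Pool.Agent.H58.GR
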