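import Pool.Agent.H58.GR.Nrm

/-!
# Pattern systems with many levels: no projections
-/

set_option autoImplicit false
set_option linter.unusedVariables false

namespace Pool.Agent.H58.GR

open Pool.Agent.H53.GC Pool.Agent.H58.SF Pool.Agent.H58.CT
open Classical

variable {𝓔 X 𝓛 : Type} {P : PS 𝓔 X 𝓛} {ρ : 𝓔 → X → X} {j : ℕ} {I J : Type}

/-- the terms of the clone `clnJ` -/
abbrev TT (P : PS 𝓔 X 𝓛) (ρ : 𝓔 → X → X) (j : ℕ) (I : Type) : Type :=
  {F : 𝓔 → (I → X) → X // IFamJ P ρ j I F}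

/-- composition of terms -/
def cmpJ (hρ : CoreRet P.R ρ) (t : TT P ρ j I) (s : I → TT P ρ j J) : TT P ρ j J :=
  ⟨fun e w => t.1 e (fun i => (s i).1 e w), IFamJ.comp hρ t.2 fun i => (s i).2⟩

/-- projections -/
def prJ (hρ : CoreRet P.R ρ) (i : I) : TT P ρ j I := ⟨fun e w => ρ e (w i), IFamJ.proj hρ i⟩

/-- homomorphisms to the projections -/
structure HomPr (hρ : CoreRet P.R ρ) (ι : ∀ (I : Type) [Finite I], TT P ρ j I → I) : Prop where
  pr : ∀ (I : Type) [Finite I] (i : I), ι I (prJ hρ i) = i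
  comp : ∀ (I J : Type) [Finite I] [Finite J] (t : TT P ρ j I) (s : I → TT P ρ j J),
    ι J (cmpJ hρ t s) = ι J (s (ι I t))

/-- sets of terms closed under all terms -/
def SubJ (hρ : CoreRet P.R ρ) (B : Set (TT P ρ j (Fin 2))) : Prop :=
  ∀ (I : Type) [Finite I] (t : TT P ρ j I) (s : I → TT P ρ j (Fin 2)), (∀ a, s a ∈ B) →
    cmpJ hρ t s ∈ B

/-- both values occur -/
def BiJ (ξ : TT P ρ j (Fin 2) → Fin 2) (B : Set (TT P ρ j (Fin 2))) : Prop :=
  ∃ F ∈ B, ∃ G ∈ B, ξ F ≠ ξ G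

/-- the value of `ξ` is determined by one value -/
def LocJ (ξ : TT P ρ j (Fin 2) → Fin 2) (B : Set (TT P ρ j (Fin 2))) (e : 𝓔) (w : Fin 2 → X) :
    Prop :=
  ∀ F ∈ B, ∀ G ∈ B, F.1 e w = G.1 e w → ξ F = ξ G

theorem SubJ.fiber {hρ : CoreRet P.R ρ} {B : Set (TT P ρ j (Fin 2))} (hB : SubJ hρ B) (e : 𝓔)
    (w : Fin 2 → X) {b : X} (hb : ρ e b = b) : SubJ hρ {F | F ∈ B ∧ F.1 e w = b} := by
  intro I _ t s hs
  refine ⟨hB I t s fun a => (hs a).1, ?_⟩
  change t.1 e (fun a => (s a).1 e w) = b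
  have h1 : (fun a => (s a).1 e w) = fun _ : I => b := funext fun a => (hs a).2
  rw [h1, t.2.idem, hb]

/-- The reduction lemma. -/
theorem reductionJ {hρ : CoreRet P.R ρ} {ξ : TT P ρ j (Fin 2) → Fin 2}
    (S : Finset (𝓔 × (Fin 2 → X))) : ∀ B : Set (TT P ρ j (Fin 2)),
    SubJ hρ B → BiJ ξ B →
    (∃ B' ⊆ B, SubJ hρ B' ∧ BiJ ξ B' ∧ ∃ z ∈ S, LocJ ξ B' z.1 z.2) ∨
    ∃ B' ⊆ B, SubJ hρ B' ∧ BiJ ξ B' ∧ ∀ z ∈ S, ∀ F ∈ B', ∀ G ∈ B', F.1 z.1 z.2 = G.1 z.1 z.2 := by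
  induction S using Finset.induction_on with
  | empty => exact fun B hB hb => Or.inr ⟨B, subset_rfl, hB, hb, by simp⟩
  | insert z S hz ih =>
    intro B hB hb
    rcases ih B hB hb with ⟨B', h1, h2, h3, z', h4, h5⟩ | ⟨B', h1, h2, h3, h4⟩
    · exact Or.inl ⟨B', h1, h2, h3, z', Finset.mem_insert_of_mem h4, h5⟩
    · by_cases hl : LocJ ξ B' z.1 z.2
      · exact Or.inl ⟨B', h1, h2, h3, z, Finset.mem_insert_self _ _, hl⟩
      · unfold LocJ at hl
        push Not at hl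
        obtain ⟨F, hF, G, hG, he, hx⟩ := hl
        have hb' : ρ z.1 (F.1 z.1 z.2) = F.1 z.1 z.2 := F.2.left _ _
        refine Or.inr ⟨{K | K ∈ B' ∧ K.1 z.1 z.2 = F.1 z.1 z.2}, fun K hK => h1 hK.1,
          SubJ.fiber h2 z.1 z.2 hb', ⟨F, ⟨hF, rfl⟩, G, ⟨hG, he.symm⟩, hx⟩, ?_⟩
        intro z' hz' K hK K' hK'
        rcases Finset.mem_insert.1 hz' with rfl | h5
        · rw [hK.2, hK'.2]
        · exact h4 z' h5 K hK.1 K' hK'.1

section switching

variable {hρ : CoreRet P.R ρ} {ι : ∀ (I : Type) [Finite I], TT P ρ j I → I}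
  {B : Set (TT P ρ j (Fin 2))} {e : 𝓔} {w : Fin 2 → X}

/-- Terms which agree locally have the same coordinate. -/
theorem local_agreeJ (hι : HomPr hρ ι) (hB : SubJ hρ B) (hb : BiJ (ι (Fin 2)) B)
    (hl : LocJ (ι (Fin 2)) B e w) [Finite I] (t t' : TT P ρ j I)
    (h : ∀ F : I → TT P ρ j (Fin 2), (∀ a, F a ∈ B) →
      t.1 e (fun a => (F a).1 e w) = t'.1 e (fun a => (F a).1 e w)) : ι I t = ι I t' := by
  obtain ⟨A, hA, A', hA', hx⟩ := hb
  by_contra hne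
  let F : I → TT P ρ j (Fin 2) := fun a => if a = ι I t then A else A'
  have hF : ∀ a, F a ∈ B := by
    intro a
    by_cases ha : a = ι I t
    · simp only [F, if_pos ha, hA]
    · simp only [F, if_neg ha, hA']
  have h1 := hι.comp I (Fin 2) t F
  have h2 := hι.comp I (Fin 2) t' F
  have h3 := hl _ (hB I t F hF) _ (hB I t' F hF) (h F hF)
  have h4 : F (ι I t) = A := if_pos rfl
  have h5 : F (ι I t') = A' := if_neg (Ne.symm hne)
  rw [h1, h2, h4, h5] at h3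
  exact hx h3

/-- The switch. -/
theorem switchJ (hι : HomPr hρ ι) (hB : SubJ hρ B) (hb : BiJ (ι (Fin 2)) B)
    (hl : LocJ (ι (Fin 2)) B e w) {f g : TT P ρ j (Fin 2)} (hfg : ι (Fin 2) f ≠ ι (Fin 2) g)
    (h : ∀ K K' : TT P ρ j (Fin 2), K.1 e w ≠ K'.1 e w → ∃ q : TT P ρ j (Fin 2),
      q.1 e ![K.1 e w, K'.1 e w] = f.1 e ![K.1 e w, K'.1 e w] ∧
      q.1 e ![K'.1 e w, K.1 e w] = g.1 e ![K'.1 e w, K.1 e w]) : False := by
  obtain ⟨A, hA, A', hA', hx⟩ := hb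
  have hne : A.1 e w ≠ A'.1 e w := fun h1 => hx (hl A hA A' hA' h1)
  obtain ⟨q, h1, h2⟩ := h A A' hne
  have key : ∀ (K K' : TT P ρ j (Fin 2)), K ∈ B → K' ∈ B → ι (Fin 2) K ≠ ι (Fin 2) K' →
      ∀ r : TT P ρ j (Fin 2),
      q.1 e ![K.1 e w, K'.1 e w] = r.1 e ![K.1 e w, K'.1 e w] → ι (Fin 2) q = ι (Fin 2) r := by
    intro K K' hK hK' hKK r he
    have hFB : ∀ a : Fin 2, (![K, K'] : Fin 2 → TT P ρ j (Fin 2)) a ∈ B := by
      intro a
      fin_cases a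
      · exact hK
      · exact hK'
    have hv : ∀ s : TT P ρ j (Fin 2),
        (cmpJ hρ s ![K, K']).1 e w = s.1 e ![K.1 e w, K'.1 e w] := by
      intro s
      change s.1 e _ = s.1 e _
      refine congrArg (s.1 e) (funext fun a => ?_)
      fin_cases a <;> rfl
    have h3 := hl _ (hB (Fin 2) q ![K, K'] hFB) _ (hB (Fin 2) r ![K, K'] hFB) (by
      rw [hv, hv, he])
    rw [hι.comp, hι.comp] at h3
    by_contra hne'
    have key2 : ∀ a b : Fin 2, a ≠ b → (a = 0 ∧ b = 1) ∨ (a = 1 ∧ b = 0) := by decide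
    rcases key2 _ _ hne' with ⟨e1, e2⟩ | ⟨e1, e2⟩
    · rw [e1, e2] at h3
      exact hKK h3
    · rw [e1, e2] at h3
      exact hKK h3.symm
  have k1 := key A A' hA hA' hx f h1
  have k2 := key A' A hA' hA (Ne.symm hx) g h2
  exact hfg (k1.symm.trans k2)

end switching

/-! ### Patterns -/

theorem pat_const {Y : Type} (r : Fin 3) (y : Y) : pat r y y = fun _ => y := by
  funext i
  fin_cases r <;> fin_cases i <;> rfl

theorem pat_eq {Y : Type} (r : Fin 3) (w : Fin 2 → Y) :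
    pat r (w 0) (w 1) = fun a => w (pat r 0 1 a) := by
  funext a
  exact (pat_map w r 0 1 a).symm

theorem pat_vary (κ : Fin 6) (x : Fin 2) : ∃ r : Fin 3, pat r (0 : Fin 2) 1 κ ≠ x := by
  revert κ x
  decide

theorem nrm_pat [Finite X] (r : X → X) (f : (Fin 6 → X) → X) (j : Fin 3) (w : Fin 2 → X) :
    nrm r (fun w : Fin 2 → X => f (pat j (w 0) (w 1))) w = nrm r f (pat j (w 0) (w 1)) := by
  unfold nrm
  simp only [pat_const]
  congr 3
  funext a
  exact (pat_map r j (w 0) (w 1) a).symm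

theorem famJ_pat {H : 𝓔 → (Fin 6 → X) → X} (hH : FamJ P j (Fin 6) H) (r : Fin 3) :
    FamJ P j (Fin 2) (fun e w => H e (pat r (w 0) (w 1))) := by
  intro l p hp ha
  have h1 := hH l (fun a => p (pat r (0 : Fin 2) 1 a)) (fun a => hp _)
    fun e he hs i i' => ha e he hs _ _
  have h2 : (fun e => H e (pat r (p 0 e) (p 1 e))) =
      fun e => H e (fun a => p (pat r (0 : Fin 2) 1 a) e) := by
    funext e
    rw [pat_eq r (fun i => p i e)]
  change P.R l (fun e => H e (pat r (p 0 e) (p 1 e)))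
  rw [h2]
  exact h1

/-- The family `H (pat r (w 0) (w 1))`: its value is the coordinate of `H`. -/
theorem xi_patJ [Finite X] {hρ : CoreRet P.R ρ} {ι : ∀ (I : Type) [Finite I], TT P ρ j I → I}
    (hι : HomPr hρ ι) {H : 𝓔 → (Fin 6 → X) → X} (hH : FamJ P j (Fin 6) H) (r : Fin 3) :
    ι (Fin 2) ⟨_, nrmJ hρ (famJ_pat hH r)⟩ = pat r (0 : Fin 2) 1 (ι (Fin 6) ⟨_, nrmJ hρ hH⟩) := by
  have h1 := hι.comp (Fin 6) (Fin 2) ⟨_, nrmJ hρ hH⟩ (fun a => prJ hρ (pat r (0 : Fin 2) 1 a))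
  rw [hι.pr] at h1
  rw [← h1]
  congr 1
  apply Subtype.ext
  funext e w
  change nrm (ρ e) (fun w : Fin 2 → X => H e (pat r (w 0) (w 1))) w =
    nrm (ρ e) (H e) (fun a => ρ e (w (pat r (0 : Fin 2) 1 a)))
  rw [nrm_pat, pat_eq]
  exact ((nrmJ hρ hH).right e (fun a => w (pat r (0 : Fin 2) 1 a))).symm

/-- Two local sorts. -/
theorem twoJ [Finite X] (hP : Good P) {hρ : CoreRet P.R ρ}
    {ι : ∀ (I : Type) [Finite I], TT P ρ j I → I} (hι : HomPr hρ ι) (hM : MixJ P j)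
    {e e' : 𝓔} {w w' : Fin 2 → X} {B B' : Set (TT P ρ j (Fin 2))} (hB : SubJ hρ B)
    (hB' : SubJ hρ B') (hb : BiJ (ι (Fin 2)) B) (hb' : BiJ (ι (Fin 2)) B')
    (hl : LocJ (ι (Fin 2)) B e w) (hl' : LocJ (ι (Fin 2)) B' e' w') (hw : VJ P j e w)
    (hw' : VJ P j e' w') (he : P.sz e = j) (hne : ¬ P.le e e') : False := by
  obtain ⟨D, H, G, hD, hH, hG, h1, h2⟩ := hM e e' he hne
  have h3 : ∀ r, ι (Fin 2) ⟨_, nrmJ hρ (hG r)⟩ = ι (Fin 2) ⟨_, nrmJ hρ hD⟩ := by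
    intro r
    refine local_agreeJ hι hB hb hl _ _ fun F hF => ?_
    exact nrm_valid hP hρ (hG r) (h1 r) (VJ.app hw fun a => (F a).2)
  have h4 : ∀ r, ι (Fin 2) ⟨_, nrmJ hρ (hG r)⟩ = ι (Fin 2) ⟨_, nrmJ hρ (famJ_pat hH r)⟩ := by
    intro r
    refine local_agreeJ hι hB' hb' hl' _ _ fun F hF => ?_
    exact nrm_valid (G := fun e w => H e (pat r (w 0) (w 1))) hP hρ (hG r) (h2 r)
      (VJ.app hw' fun a => (F a).2)
  obtain ⟨r, hr⟩ := pat_vary (ι (Fin 6) ⟨_, nrmJ hρ hH⟩) (ι (Fin 2) ⟨_, nrmJ hρ hD⟩)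
  refine hr ?_
  rw [← xi_patJ hι hH r, ← h4 r, h3 r]

/-- There is no homomorphism to the projections which is determined by the sorts of size `j`. -/
theorem noPrjOn [Finite 𝓔] [Finite X] (hP : Good P) (hρ : CoreRet P.R ρ) (hM : MixJ P j) :
    @NoPrjOn (clnJ P ρ hρ j) (AIx P ρ j) (AC P ρ j) (fun s => algJ hP hρ s) := by
  rintro ⟨ι, k1, k2, k3⟩
  have hι : @HomPr 𝓔 X 𝓛 P ρ j hρ ι := ⟨k1, k2⟩
  have hfE := Fintype.ofFinite 𝓔
  have hfX := Fintype.ofFinite X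
  have hB₀ : SubJ (j := j) hρ (Set.univ : Set (TT P ρ j (Fin 2))) := fun _ _ _ _ _ => trivial
  have hb₀ : BiJ (ι (Fin 2)) (Set.univ : Set (TT P ρ j (Fin 2))) := by
    refine ⟨prJ hρ 0, trivial, prJ hρ 1, trivial, ?_⟩
    rw [hι.pr, hι.pr]
    decide
  -- the local sort
  obtain ⟨B₂, hB₂, hb₂, e, w, hes, hw, hl⟩ : ∃ B' : Set (TT P ρ j (Fin 2)), SubJ hρ B' ∧
      BiJ (ι (Fin 2)) B' ∧ ∃ (e : 𝓔) (w : Fin 2 → X), P.sz e = j ∧ VJ P j e w ∧
        LocJ (ι (Fin 2)) B' e w := by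
    rcases reductionJ (hρ := hρ) (Finset.univ.filter fun z : 𝓔 × (Fin 2 → X) =>
      P.sz z.1 = j ∧ VJ P j z.1 z.2) Set.univ hB₀ hb₀ with
      ⟨B', h1, h2, h3, z, h4, h5⟩ | ⟨B', _, h2, ⟨F, hF, G, hG', hx⟩, h4⟩
    · have hz := (Finset.mem_filter.1 h4).2
      exact ⟨B', h2, h3, z.1, z.2, hz.1, hz.2, h5⟩
    · refine absurd (k3 (Fin 2) F G ?_) hx
      intro s x
      refine Subtype.ext ?_
      exact h4 (s.1.1, fun i => (x i).1)
        (Finset.mem_filter.2 ⟨Finset.mem_univ _, s.2.1, AC.valid hP x⟩) F hF G hG'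
  -- two terms which agree at all sorts which are not above `e`
  obtain ⟨f, g, hx, hoff⟩ : ∃ f g : TT P ρ j (Fin 2), ι (Fin 2) f ≠ ι (Fin 2) g ∧
      ∀ e', ¬ P.le e e' → ∀ w', VJ P j e' w' → f.1 e' w' = g.1 e' w' := by
    rcases reductionJ (hρ := hρ) (Finset.univ.filter fun z : 𝓔 × (Fin 2 → X) =>
      ¬ P.le e z.1 ∧ VJ P j z.1 z.2) Set.univ hB₀ hb₀ with
      ⟨B', h1, h2, h3, z, h4, h5⟩ | ⟨B', _, h2, ⟨F, hF, G, hG', hx⟩, h4⟩
    · have hz := (Finset.mem_filter.1 h4).2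
      exact (twoJ hP hι hM hB₂ h2 hb₂ h3 hl h5 hw hz.2 hes hz.1).elim
    · exact ⟨F, G, hx, fun e' he' w' hw' => h4 (e', w')
        (Finset.mem_filter.2 ⟨Finset.mem_univ _, he', hw'⟩) F hF G hG'⟩
  refine switchJ hι hB₂ hb₂ hl hx ?_
  intro K K' hne
  -- the switched family
  let C : 𝓔 → (Fin 2 → X) → Prop := fun e' t => P.le e e' ∧
    P.rd e e' (ρ e' (t 0)) = K.1 e w ∧ P.rd e e' (ρ e' (t 1)) = K'.1 e w
  have hC : ∀ l (p : 𝓔 → X), P.R l p → ∀ e', P.Sc l e' → P.le e e' →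
      P.rd e e' (ρ e' (p e')) = ρ e (p e) := by
    intro l p hp e' he' hle
    exact (hP.read _ _ (hρ.fam _ _ hp) e e' he' hle).symm
  let q : 𝓔 → (Fin 2 → X) → X := fun e' t => if C e' t then f.1 e' t else g.1 e' t
  have hq : IFamJ P ρ j (Fin 2) q := by
    refine ⟨?_, ?_, ?_, ?_⟩
    · intro l p hp ha
      by_cases hc : P.Sc l e ∧ ρ e (p 0 e) = K.1 e w ∧ ρ e (p 1 e) = K'.1 e w
      · refine hP.loc l _ _ ?_ (f.2.fam l p hp ha)
        intro e' he'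
        by_cases hle : P.le e e'
        · have : C e' (fun i => p i e') := by
            refine ⟨hle, ?_, ?_⟩
            · change P.rd e e' (ρ e' (p 0 e')) = K.1 e w
              rw [hC l (p 0) (hp 0) e' he' hle, hc.2.1]
            · change P.rd e e' (ρ e' (p 1 e')) = K'.1 e w
              rw [hC l (p 1) (hp 1) e' he' hle, hc.2.2]
          simp only [q, if_pos this]
        · have : ¬ C e' (fun i => p i e') := fun h => hle h.1
          simp only [q, if_neg this]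
          exact hoff e' hle _ (VJ.of_rel hP hp ha he')
      · refine hP.loc l _ _ ?_ (g.2.fam l p hp ha)
        intro e' he'
        have : ¬ C e' (fun i => p i e') := by
          rintro ⟨hle, h3, h4⟩
          refine hc ⟨hP.down l e e' he' hle, ?_, ?_⟩
          · rw [← hC l (p 0) (hp 0) e' he' hle]
            exact h3
          · rw [← hC l (p 1) (hp 1) e' he' hle]
            exact h4
        simp only [q, if_neg this]
    · intro e' t
      simp only [q]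
      split_ifs
      · exact f.2.left e' t
      · exact g.2.left e' t
    · intro e' t
      have : C e' (fun i => ρ e' (t i)) ↔ C e' t := by
        simp only [C, hρ.idem]
      simp only [q, this]
      split_ifs
      · exact f.2.right e' t
      · exact g.2.right e' t
    · intro e' t
      simp only [q]
      split_ifs
      · exact f.2.idem e' t
      · exact g.2.idem e' t
  have hval : ∀ L : TT P ρ j (Fin 2), P.rd e e (ρ e (L.1 e w)) = L.1 e w := by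
    intro L
    obtain ⟨y, hy1, hy2, _⟩ := FamJ.val hP L.2.fam hw
    have hsc : P.Sc (P.tp e) e := (hP.sctp _ _).2 (hP.refl _)
    have h3 := hC _ y hy1 e hsc (hP.refl e)
    rw [hy2, L.2.left] at h3
    rw [L.2.left]
    exact h3
  refine ⟨⟨q, hq⟩, ?_, ?_⟩
  · have : C e ![K.1 e w, K'.1 e w] := ⟨hP.refl e, hval K, hval K'⟩
    simp only [q, if_pos this]
  · have : ¬ C e ![K'.1 e w, K.1 e w] := by
      rintro ⟨_, h, _⟩
      exact hne (h.symm.trans (hval K'))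
    simp only [q, if_neg this]

end Pool.Agent.H58.GR
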