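import Pool.Agent.H58.GR.PS

/-!
# Pattern systems with many levels: normalization
-/

set_option autoImplicit false
set_option linter.unusedVariables false

namespace Pool.Agent.H58.GR

open Pool.Agent.H53.GC Pool.Agent.H58.SF Pool.Agent.H58.CT
open Classical

variable {𝓔 X 𝓛 : Type} {P : PS 𝓔 X 𝓛} {ρ : 𝓔 → X → X} {j : ℕ} {I J : Type}

theorem iter_fac [Finite X] {s : Set X} {g : X → X} (h : Set.BijOn g s s)
    {x : X} (hx : x ∈ s) : g^[(Nat.card X).factorial] x = x := by
  classical
  let σ : Equiv.Perm s := h.equiv g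
  have hσ : ∀ y : s, ((σ y : s) : X) = g y := fun _ => rfl
  have hit : ∀ (n : ℕ) (y : s), (((σ ^ n) y : s) : X) = g^[n] y := by
    intro n
    induction n with
    | zero => intro y; rfl
    | succ n ih =>
      intro y
      rw [pow_succ', Equiv.Perm.mul_apply, hσ, ih, Function.iterate_succ_apply']
  have h1 : σ ^ (Nat.card s).factorial = 1 := by
    rw [← Nat.card_perm]
    exact pow_card_eq_one'
  have h2 : σ ^ (Nat.card X).factorial = 1 := by
    have h3 : (Nat.card s).factorial ∣ (Nat.card X).factorial :=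
      Nat.factorial_dvd_factorial (Finite.card_subtype_le _)
    obtain ⟨k, hk⟩ := h3
    rw [hk, pow_mul, h1, one_pow]
  have h4 := hit (Nat.card X).factorial ⟨x, hx⟩
  rw [h2] at h4
  exact h4.symm

/-- The normalization of a family is idempotent. -/
theorem nrmJ [Finite X] (hρ : CoreRet P.R ρ) {F : 𝓔 → (I → X) → X} (hF : FamJ P j I F) :
    IFamJ P ρ j I (fun e => nrm (ρ e) (F e)) := by
  have hδ : Fam1 P.R (fun e x => ρ e (F e (fun _ => ρ e x))) := by
    intro l p hp
    exact hρ.fam l _ (hF l (fun _ e => ρ e (p e)) (fun _ => hρ.fam l p hp)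
      fun _ _ _ _ _ => rfl)
  have hφ : Fam1 P.R (fun e x => F e (fun _ => x)) := by
    intro l p hp
    exact hF l (fun _ e => p e) (fun _ => hp) fun _ _ _ _ _ => rfl
  have hr : ∀ e x, x ∈ Set.range (ρ e) → ρ e x = x := by
    rintro e _ ⟨y, rfl⟩
    exact hρ.idem e y
  have hit : ∀ n : ℕ, Fam1 P.R (fun e => (fun x => ρ e (F e (fun _ => ρ e x)))^[n]) := by
    intro n
    induction n with
    | zero => exact fun l p hp => hp
    | succ n ih =>
      intro l p hp
      have h1 := hδ l _ (ih l p hp)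
      simp only [Function.iterate_succ_apply']
      exact h1
  have hrange : ∀ e (n : ℕ) x, x ∈ Set.range (ρ e) →
      (fun x => ρ e (F e (fun _ => ρ e x)))^[n] x ∈ Set.range (ρ e) := by
    intro e n
    induction n with
    | zero => exact fun x hx => hx
    | succ n ih =>
      intro x hx
      rw [Function.iterate_succ_apply']
      exact ⟨_, rfl⟩
  refine ⟨?_, ?_, ?_, ?_⟩
  · intro l p hp ha
    have h1 : P.R l (fun e => ρ e (F e (fun i => ρ e (p i e)))) :=
      hρ.fam l _ (hF l (fun i e => ρ e (p i e)) (fun i => hρ.fam l _ (hp i))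
        fun e he hs i i' => congrArg (ρ e) (ha e he hs i i'))
    exact hit _ l _ h1
  · intro e w
    exact hr e _ (hrange e _ _ ⟨_, rfl⟩)
  · intro e w
    simp only [nrm, hρ.idem]
  · intro e t
    set δ : X → X := fun x => ρ e (F e (fun _ => ρ e x)) with hδdef
    have h0 : nrm (ρ e) (F e) (fun _ => t) = δ^[(Nat.card X).factorial - 1] (δ t) := rfl
    have h1 : δ t = δ (ρ e t) := by
      simp only [hδdef, hρ.idem]
    rw [h0, h1, ← Function.iterate_succ_apply]
    have h2 : (Nat.card X).factorial - 1 + 1 = (Nat.card X).factorial :=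
      Nat.succ_pred_eq_of_pos (Nat.factorial_pos _)
    rw [Nat.succ_eq_add_one, h2]
    have h3 : Set.BijOn δ (Set.range (ρ e)) (Set.range (ρ e)) := by
      refine (hρ.bij _ hφ e).congr ?_
      intro x hx
      simp only [hδdef, hr e x hx]
    exact iter_fac h3 ⟨t, rfl⟩

/-- Reindexing of valid tuples. -/
theorem VJ.reindex {e : 𝓔} {w : I → X} (hw : VJ P j e w) (π : J → I) :
    VJ P j e (fun a => w (π a)) := by
  obtain ⟨q, h1, h2, h3⟩ := hw
  exact ⟨fun a => q (π a), fun a => h1 _, fun e' he' hs i i' => h2 e' he' hs _ _,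
    fun a => h3 _⟩

/-- The retraction applied to valid tuples. -/
theorem VJ.core (hρ : CoreRet P.R ρ) {e : 𝓔} {w : I → X} (hw : VJ P j e w) :
    VJ P j e (fun i => ρ e (w i)) := by
  obtain ⟨q, h1, h2, h3⟩ := hw
  refine ⟨fun i e => ρ e (q i e), fun i => hρ.fam _ _ (h1 i), fun e' he' hs i i' => ?_,
    fun i => ?_⟩
  · change ρ e' (q i e') = ρ e' (q i' e')
    rw [h2 e' he' hs i i']
  · change ρ e (q i e) = ρ e (w i)
    rw [h3]

/-- Values of idempotent families on valid tuples. -/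
theorem VJ.app {e : 𝓔} {w : J → X} (hw : VJ P j e w) {F : I → 𝓔 → (J → X) → X}
    (hF : ∀ i, IFamJ P ρ j J (F i)) : VJ P j e (fun i => F i e w) := by
  obtain ⟨q, h1, h2, h3⟩ := hw
  refine ⟨fun i e => F i e (fun a => q a e), fun i => (hF i).fam _ q h1 h2, ?_, ?_⟩
  · intro e' he' hs i i'
    exact IFamJ.agr (hF i).idem (hF i').idem fun a a' => h2 e' he' hs a a'
  · intro i
    change F i e (fun a => q a e) = F i e w
    congr 1
    exact funext h3

/-- Normalizations of families which agree on valid tuples at `e` agree on valid tuples at `e`. -/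
theorem nrm_valid (hP : Good P) (hρ : CoreRet P.R ρ) {F G : 𝓔 → (I → X) → X}
    (hF : FamJ P j I F) {e : 𝓔} (h : ∀ w, VJ P j e w → F e w = G e w)
    {w : I → X} (hw : VJ P j e w) : nrm (ρ e) (F e) w = nrm (ρ e) (G e) w := by
  have hV : ∀ x, (∃ q, P.R (P.tp e) q ∧ q e = x) →
      VJ P j e (fun _ : I => ρ e x) := by
    rintro x ⟨q, h1, rfl⟩
    exact ⟨fun _ e => ρ e (q e), fun _ => hρ.fam _ _ h1, fun _ _ _ _ _ => rfl, fun _ => rfl⟩
  have hv1 : ∀ w : I → X, VJ P j e w → ∃ q, P.R (P.tp e) q ∧ q e = ρ e (F e w) := by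
    intro w hw
    obtain ⟨q, h1, h2, _⟩ := FamJ.val hP hF hw
    exact ⟨fun e => ρ e (q e), hρ.fam _ _ h1, by rw [← h2]⟩
  have hstep : ∀ (n : ℕ) (x : X), (∃ q, P.R (P.tp e) q ∧ q e = x) →
      (fun x => ρ e (F e (fun _ => ρ e x)))^[n] x = (fun x => ρ e (G e (fun _ => ρ e x)))^[n] x ∧
      ∃ q, P.R (P.tp e) q ∧ q e = (fun x => ρ e (F e (fun _ => ρ e x)))^[n] x := by
    intro n
    induction n with
    | zero => exact fun x hx => ⟨rfl, hx⟩
    | succ n ih =>
      intro x hx
      obtain ⟨h1, h2⟩ := ih x hx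
      rw [Function.iterate_succ_apply', Function.iterate_succ_apply', ← h1]
      exact ⟨congrArg (ρ e) (h _ (hV _ h2)), hv1 _ (hV _ h2)⟩
  unfold nrm
  rw [← h _ (VJ.core hρ hw)]
  exact (hstep _ _ (hv1 _ (VJ.core hρ hw))).1

end Pool.Agent.H58.GR
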